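import Mathlib
import Pool.Agent.N396.C17.Main

/-! The topologically realizable `(17_4)` configuration has no symmetric realization in the
Euclidean plane proper. -/

namespace Pool.Agent.Results.MP_640900_co.NoSymmetry

open Pool.Agent.N396.C17

/-- No topological realization of the `(17_4)` configuration which lies in the Euclidean plane
proper admits a symmetry. -/
theorem result (R : Realization) (hR : R.IsProper) :
    ¬ ∃ T : Plane → Plane, R.IsSymmetry T := by
  rintro ⟨T, hT⟩
  exact main R hR T hT

end Pool.Agent.Results.MP_640900_co.NoSymmetry
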